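import Mathlib

set_option autoImplicit false

namespace Pool.Agent.Results.MP_f151b7_co.Stars

/-- The number of edges of `G`. -/
noncomputable def size {V : Type} (G : SimpleGraph V) : ℕ := G.edgeSet.ncard

/-- A partition of the vertex set into `k` (possibly empty) classes is given by a map
`f : V → Fin k`. `meets G f i` is the number of edges with at least one endpoint in class `i`. -/
noncomputable def meets {V : Type} {k : ℕ} (G : SimpleGraph V) (f : V → Fin k) (i : Fin k) : ℕ :=
  {e | e ∈ G.edgeSet ∧ ∃ v ∈ e, f v = i}.ncard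

/-- The star with `m` leaves; its centre is `none`. -/
def star (m : ℕ) : SimpleGraph (Option (Fin m)) where
  Adj u v := (u = none ∧ v ≠ none) ∨ (u ≠ none ∧ v = none)
  symm := ⟨fun u v h => by
    rcases h with ⟨h1, h2⟩ | ⟨h1, h2⟩
    · exact Or.inr ⟨h2, h1⟩
    · exact Or.inl ⟨h2, h1⟩⟩
  loopless := ⟨fun u h => by
    rcases h with ⟨h1, h2⟩ | ⟨h1, h2⟩
    · exact h2 h1
    · exact h1 h2⟩

/-- The edge of the star at leaf `j`. -/
def ed {m : ℕ} (j : Fin m) : Sym2 (Option (Fin m)) := s(none, some j)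

theorem ed_injective {m : ℕ} : Function.Injective (@ed m) := by
  intro i j h
  unfold ed at h
  rw [Sym2.eq_iff] at h
  rcases h with ⟨_, h⟩ | ⟨h, _⟩
  · exact Option.some_injective _ h
  · exact absurd h (by simp)

theorem edgeSet_star (m : ℕ) : (star m).edgeSet = Set.range (@ed m) := by
  ext e
  induction e using Sym2.ind with
  | _ u v =>
    rw [SimpleGraph.mem_edgeSet]
    constructor
    · rintro (⟨rfl, h⟩ | ⟨h, rfl⟩)
      · obtain ⟨j, rfl⟩ := Option.ne_none_iff_exists'.1 h
        exact ⟨j, rfl⟩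
      · obtain ⟨j, rfl⟩ := Option.ne_none_iff_exists'.1 h
        exact ⟨j, Sym2.eq_swap⟩
    · rintro ⟨j, hj⟩
      unfold ed at hj
      rw [Sym2.eq_iff] at hj
      rcases hj with ⟨rfl, rfl⟩ | ⟨rfl, rfl⟩
      · exact Or.inl ⟨rfl, by simp⟩
      · exact Or.inr ⟨by simp, rfl⟩

theorem size_star (m : ℕ) : size (star m) = m := by
  unfold size
  rw [edgeSet_star, ← Set.image_univ, Set.ncard_image_of_injective _ ed_injective,
    Set.ncard_univ, Nat.card_eq_fintype_card, Fintype.card_fin]

theorem meets_star {m k : ℕ} (f : Option (Fin m) → Fin k) (i : Fin k) (hi : f none ≠ i) :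
    meets (star m) f i = (Finset.univ.filter (fun j : Fin m => f (some j) = i)).card := by
  classical
  unfold meets
  have h : {e | e ∈ (star m).edgeSet ∧ ∃ v ∈ e, f v = i} =
      ed '' (((Finset.univ.filter (fun j : Fin m => f (some j) = i)) : Finset (Fin m)) :
        Set (Fin m)) := by
    ext e
    rw [edgeSet_star]
    constructor
    · rintro ⟨⟨j, rfl⟩, v, hv, hvi⟩
      refine ⟨j, ?_, rfl⟩
      unfold ed at hv
      rw [Sym2.mem_iff] at hv
      rcases hv with rfl | rfl
      · exact absurd hvi hi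
      · simpa using hvi
    · rintro ⟨j, hj, rfl⟩
      refine ⟨⟨j, rfl⟩, some j, ?_, ?_⟩
      · unfold ed
        exact Sym2.mem_mk_right _ _
      · simpa using hj
  rw [h, Set.ncard_image_of_injective _ ed_injective, Set.ncard_coe_finset]

theorem main (t m : ℕ) (hm : m = 2 * t ^ 2 + 6 * t + 3) (f : Option (Fin m) → Fin (t + 3)) :
    ∃ i, (meets (star m) f i : ℚ) <
      2 * (size (star m) : ℚ) / (2 * ((t + 3 : ℕ) : ℚ) - 1) := by
  classical
  by_contra hcon
  push Not at hcon
  -- each class not containing the centre has at least 2 t + 2 leaves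
  have h1 : ∀ i, f none ≠ i →
      2 * t + 2 ≤ (Finset.univ.filter (fun j : Fin m => f (some j) = i)).card := by
    intro i hi
    have h2 := hcon i
    rw [meets_star f i hi, size_star] at h2
    have h3 : (0 : ℚ) < 2 * ((t + 3 : ℕ) : ℚ) - 1 := by
      push_cast
      have : (0 : ℚ) ≤ t := Nat.cast_nonneg t
      linarith
    rw [div_le_iff₀ h3] at h2
    by_contra h4
    push Not at h4
    have h5 : ((Finset.univ.filter (fun j : Fin m => f (some j) = i)).card : ℚ) ≤
        2 * (t : ℚ) + 1 := by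
      have : (Finset.univ.filter (fun j : Fin m => f (some j) = i)).card ≤ 2 * t + 1 := by omega
      exact_mod_cast this
    have h6 : (m : ℚ) = 2 * (t : ℚ) ^ 2 + 6 * t + 3 := by
      rw [hm]
      push_cast
      ring
    rw [h6] at h2
    have h7 := mul_le_mul_of_nonneg_right h5 h3.le
    push_cast at h2 h7
    nlinarith
  have h8 : ∑ i ∈ Finset.univ.erase (f none),
      (Finset.univ.filter (fun j : Fin m => f (some j) = i)).card ≤ m := by
    calc ∑ i ∈ Finset.univ.erase (f none),
          (Finset.univ.filter (fun j : Fin m => f (some j) = i)).card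
        ≤ ∑ i, (Finset.univ.filter (fun j : Fin m => f (some j) = i)).card :=
          Finset.sum_le_sum_of_subset (Finset.erase_subset _ _)
      _ = (Finset.univ : Finset (Fin m)).card :=
          (Finset.card_eq_sum_card_fiberwise (fun _ _ => Finset.mem_univ _)).symm
      _ = m := by rw [Finset.card_univ, Fintype.card_fin]
  have h9 : ∑ i ∈ Finset.univ.erase (f none), (2 * t + 2) ≤
      ∑ i ∈ Finset.univ.erase (f none),
        (Finset.univ.filter (fun j : Fin m => f (some j) = i)).card := by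
    apply Finset.sum_le_sum
    intro i hi
    exact h1 i (Finset.ne_of_mem_erase hi).symm
  rw [Finset.sum_const, Finset.card_erase_of_mem (Finset.mem_univ _), Finset.card_univ,
    Fintype.card_fin, smul_eq_mul] at h9
  have h10 : (t + 3 - 1) * (2 * t + 2) = 2 * t ^ 2 + 6 * t + 4 := by
    rw [show t + 3 - 1 = t + 2 by omega]
    ring
  rw [h10] at h9
  omega

/-- Disproof of Q1, for every single `k ≥ 3`: the star with `2 k² - 6 k + 3 ≥ C(k, 2)` edges has no
partition of its vertex set into `k` classes each meeting at least `2 m / (2 k - 1)` edges. -/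
theorem result :
    (∀ k : ℕ, 3 ≤ k → ∃ (V : Type) (_ : Finite V) (G : SimpleGraph V), k.choose 2 ≤ size G ∧
      ∀ f : V → Fin k, ∃ i, (meets G f i : ℚ) < 2 * (size G : ℚ) / (2 * (k : ℚ) - 1)) ∧
    ¬ ∀ k : ℕ, 2 ≤ k → ∀ (V : Type) (_ : Finite V) (G : SimpleGraph V), k.choose 2 ≤ size G →
      ∃ f : V → Fin k, ∀ i, 2 * (size G : ℚ) / (2 * (k : ℚ) - 1) ≤ (meets G f i : ℚ) := by
  have h : ∀ k : ℕ, 3 ≤ k → ∃ (V : Type) (_ : Finite V) (G : SimpleGraph V),
      k.choose 2 ≤ size G ∧
      ∀ f : V → Fin k, ∃ i, (meets G f i : ℚ) < 2 * (size G : ℚ) / (2 * (k : ℚ) - 1) := by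
    intro k hk
    obtain ⟨t, rfl⟩ : ∃ t, k = t + 3 := ⟨k - 3, by omega⟩
    refine ⟨Option (Fin (2 * t ^ 2 + 6 * t + 3)), inferInstance,
      star (2 * t ^ 2 + 6 * t + 3), ?_, main t _ rfl⟩
    rw [size_star, Nat.choose_two_right]
    apply Nat.div_le_of_le_mul
    rw [show t + 3 - 1 = t + 2 by omega]
    nlinarith
  refine ⟨h, fun hall => ?_⟩
  obtain ⟨V, hV, G, h1, h2⟩ := h 3 le_rfl
  obtain ⟨f, hf⟩ := hall 3 (by norm_num) V hV G h1
  obtain ⟨i, hi⟩ := h2 f
  exact absurd (hf i) (not_le.2 hi)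

end Pool.Agent.Results.MP_f151b7_co.Stars
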